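import Pool.Agent.GT.StmtsB

/-!
Squad GT, row B_HUL: the convex hull is closed under products.
-/

namespace Pool.Agent.GT.H3

open Pool.Agent.GT

/-- if the products with `ψ` of the elements of `G` are in the convex set `H`, so are the products with `ψ` of
the elements of the convex hull of `G` -/
theorem mul_hull {Z : Type} (G H : Set (Z → ℝ)) (hH : Convex ℝ H) (ψ : Z → ℝ)
    (h : ∀ φ ∈ G, (fun s => φ s * ψ s) ∈ H) :
    ∀ φ ∈ convexHull ℝ G, (fun s => φ s * ψ s) ∈ H := by
  have hsub : convexHull ℝ G ⊆ {φ | (fun s => φ s * ψ s) ∈ H} := by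
    apply convexHull_min
    · intro φ hφ
      exact h φ hφ
    · intro φ hφ χ hχ a b ha hb hab
      have h1 := hH hφ hχ ha hb hab
      show (fun s => (a • φ + b • χ) s * ψ s) ∈ H
      have e : (fun s => (a • φ + b • χ) s * ψ s)
          = a • (fun s => φ s * ψ s) + b • (fun s => χ s * ψ s) := by
        funext s
        simp only [Pi.add_apply, Pi.smul_apply, smul_eq_mul]
        ring
      rw [e]
      exact h1
  exact fun φ hφ => hsub hφ

theorem b_hul : HulStmt := by
  intro Z G h1 hmul
  have hcx : Convex ℝ (convexHull ℝ G) := convex_convexHull ℝ G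
  have hprod : ∀ φ ∈ convexHull ℝ G, ∀ ψ ∈ convexHull ℝ G,
      (fun s => φ s * ψ s) ∈ convexHull ℝ G := by
    intro φ hφ ψ hψ
    have hA : ∀ ψ ∈ G, (fun s => φ s * ψ s) ∈ convexHull ℝ G := fun ψ hψ =>
      mul_hull G _ hcx ψ (fun χ hχ => hmul χ hχ ψ hψ) φ hφ
    have hB := mul_hull G _ hcx φ (fun ψ hψ => by
      have := hA ψ hψ
      have e : (fun s => ψ s * φ s) = (fun s => φ s * ψ s) := by
        funext s
        ring
      rw [e]
      exact this) ψ hψ
    have e : (fun s => φ s * ψ s) = (fun s => ψ s * φ s) := by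
      funext s
      ring
    rw [e]
    exact hB
  intro φ hφ m
  induction m with
  | zero =>
    have e : (fun s => φ s ^ 0) = (fun _ : Z => (1 : ℝ)) := by
      funext s
      simp
    rw [e]
    exact subset_convexHull ℝ G h1
  | succ m ih =>
    have e : (fun s => φ s ^ (m + 1)) = (fun s => φ s ^ m * φ s) := by
      funext s
      rw [pow_succ]
    rw [e]
    exact hprod _ ih φ hφ

end Pool.Agent.GT.H3
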