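import Pool.Agent.GT.StmtsD

/-!
Squad GT, row D_TWO: the local condition at the prime 2.
-/

namespace Pool.Agent.GT.D.H3

open Pool.Agent.GT.D Polynomial Pool.Agent.NJ

theorem exists_dec (n : ℤ) (hn : n ≠ 0) : ∃ (v : ℕ) (w : ℤ), n = 2 ^ v * w ∧ w % 2 = 1 := by
  have hf : FiniteMultiplicity (2 : ℤ) n := Int.finiteMultiplicity_iff.2 ⟨by decide, hn⟩
  obtain ⟨c, hc, hd⟩ := hf.exists_eq_pow_mul_and_not_dvd
  exact ⟨_, c, hc, by omega⟩

theorem val_dec (n : ℤ) (v : ℕ) (w : ℤ) (h : n = 2 ^ v * w) (hw : w % 2 = 1) :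
    padicValInt 2 n = v ∧ un 2 n = w := by
  have hp : Fact (Nat.Prime 2) := ⟨Nat.prime_two⟩
  have hw0 : w ≠ 0 := by
    rintro rfl
    simp at hw
  have hv : padicValInt 2 n = v := by
    rw [h, padicValInt.mul (pow_ne_zero _ two_ne_zero) hw0]
    have h1 : padicValInt 2 ((2 : ℤ) ^ v) = v := by
      have : ((2 : ℤ) ^ v) = ((2 ^ v : ℕ) : ℤ) := by push_cast; rfl
      rw [this, padicValInt.of_nat, padicValNat.prime_pow]
    have h2 : padicValInt 2 w = 0 := by
      apply padicValInt.eq_zero_of_not_dvd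
      intro hd
      have : (2 : ℤ) ∣ w := by exact_mod_cast hd
      omega
    rw [h1, h2, add_zero]
  refine ⟨hv, ?_⟩
  unfold un
  rw [hv, h]
  have : ((2 : ℕ) : ℤ) = 2 := rfl
  rw [this]
  exact Int.mul_ediv_cancel_left _ (pow_ne_zero _ two_ne_zero)

theorem vals (n : ℤ) (v : ℕ) (w : ℤ) (h : n = 2 ^ v * w) (hw : w % 2 = 1) :
    vl 2 n = (v : ZMod 2) ∧ l4 n = (if w % 4 = 3 then 1 else 0) ∧
      l8 n = (if w % 8 = 3 ∨ w % 8 = 5 then 1 else 0) := by
  obtain ⟨h1, h2⟩ := val_dec n v w h hw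
  unfold vl l4 l8
  rw [h1, h2]
  exact ⟨rfl, rfl, rfl⟩

theorem uniq (a b : ℕ) (w x : ℤ) (hw : w % 2 = 1) (hx : x % 2 = 1) (h : 2 ^ a * w = 2 ^ b * x) :
    a = b ∧ w = x := by
  obtain ⟨h1, h2⟩ := val_dec _ a w rfl hw
  obtain ⟨h3, h4⟩ := val_dec _ b x rfl hx
  rw [h] at h1 h2
  exact ⟨h1.symm.trans h3, h2.symm.trans h4⟩

theorem odd_mul (a b : ℤ) (ha : a % 2 = 1) (hb : b % 2 = 1) : (a * b) % 2 = 1 := by
  rw [Int.mul_emod, ha, hb]
  norm_num

theorem odd_sq8 (b : ℤ) (hb : b % 2 = 1) : (b * b) % 8 = 1 := by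
  have h : b % 8 = 1 ∨ b % 8 = 3 ∨ b % 8 = 5 ∨ b % 8 = 7 := by omega
  rw [Int.mul_emod]
  rcases h with h | h | h | h <;> rw [h] <;> norm_num

/-- a product which is a square -/
theorem sq_dec (n₁ n₂ n₃ : ℤ) (v₁ v₂ v₃ : ℕ) (w₁ w₂ w₃ : ℤ) (e₁ : n₁ = 2 ^ v₁ * w₁)
    (e₂ : n₂ = 2 ^ v₂ * w₂) (e₃ : n₃ = 2 ^ v₃ * w₃) (o₁ : w₁ % 2 = 1) (o₂ : w₂ % 2 = 1)
    (o₃ : w₃ % 2 = 1) (h : IsSquare (n₁ * n₂ * n₃)) :
    (v₁ + v₂ + v₃) % 2 = 0 ∧ (w₁ * w₂ * w₃) % 8 = 1 := by
  obtain ⟨y, hy⟩ := h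
  have hw : ∀ w : ℤ, w % 2 = 1 → w ≠ 0 := by
    rintro w h rfl
    simp at h
  have hy0 : y ≠ 0 := by
    rintro rfl
    rw [mul_zero, e₁, e₂, e₃] at hy
    have h2 : ∀ v : ℕ, (2 : ℤ) ^ v ≠ 0 := fun v => pow_ne_zero _ two_ne_zero
    have := mul_ne_zero (mul_ne_zero (mul_ne_zero (h2 v₁) (hw _ o₁)) (mul_ne_zero (h2 v₂) (hw _ o₂)))
      (mul_ne_zero (h2 v₃) (hw _ o₃))
    exact this hy
  obtain ⟨a, b, hab, hb⟩ := exists_dec y hy0
  have hmain : 2 ^ (v₁ + v₂ + v₃) * (w₁ * w₂ * w₃) = 2 ^ (a + a) * (b * b) := by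
    rw [e₁, e₂, e₃, hab] at hy
    rw [pow_add, pow_add, pow_add]
    linarith
  obtain ⟨h1, h2⟩ := uniq _ _ _ _ (odd_mul _ _ (odd_mul _ _ o₁ o₂) o₃) (odd_mul _ _ hb hb) hmain
  refine ⟨by omega, ?_⟩
  rw [h2]
  exact odd_sq8 b hb

theorem m8a (Z u u' : ℤ) (h : (Z * u * u') % 8 = 1) (hu : u' % 8 = u % 8) (ho : u % 2 = 1) :
    Z % 8 = 1 := by
  have hz : Z % 8 = 0 ∨ Z % 8 = 1 ∨ Z % 8 = 2 ∨ Z % 8 = 3 ∨ Z % 8 = 4 ∨ Z % 8 = 5 ∨ Z % 8 = 6 ∨
    Z % 8 = 7 := by omega
  have hu8 : u % 8 = 1 ∨ u % 8 = 3 ∨ u % 8 = 5 ∨ u % 8 = 7 := by omega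
  rw [Int.mul_emod, Int.mul_emod Z u, hu] at h
  rcases hz with h1 | h1 | h1 | h1 | h1 | h1 | h1 | h1 <;> rcases hu8 with h2 | h2 | h2 | h2 <;>
    rw [h1, h2] at h <;> first | exact h1 | (exfalso; revert h; decide)

theorem m8b (z w w' : ℤ) (h : (z * w * w') % 8 = 1) (hz : z % 8 = 5) (ho : w % 2 = 1) :
    w' % 8 = (5 * w) % 8 := by
  have hw : w % 8 = 1 ∨ w % 8 = 3 ∨ w % 8 = 5 ∨ w % 8 = 7 := by omega
  have hw' : w' % 8 = 0 ∨ w' % 8 = 1 ∨ w' % 8 = 2 ∨ w' % 8 = 3 ∨ w' % 8 = 4 ∨ w' % 8 = 5 ∨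
    w' % 8 = 6 ∨ w' % 8 = 7 := by omega
  rw [Int.mul_emod, Int.mul_emod z w, hz] at h
  rw [Int.mul_emod 5 w]
  rcases hw with h1 | h1 | h1 | h1 <;> rcases hw' with h2 | h2 | h2 | h2 | h2 | h2 | h2 | h2 <;>
    rw [h1, h2] at h <;> rw [h1, h2] <;> revert h <;> decide

/-- the last case, with the decompositions -/
theorem last_case (u u' E : ℤ) (a b : ℕ) (w w' z : ℤ) (hu : u = 2 ^ a * w) (hu' : u' = 2 ^ b * w')
    (hw : w % 2 = 1) (hw' : w' % 2 = 1) (hE : E = u - u') (h64 : (64 : ℤ) ∣ E)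
    (hpar : (a + b) % 2 = 1) (h8 : (z * w * w') % 8 = 1) :
    64 ∣ u ∧ (z % 8 = 5 → l8 u + vl 2 u = l8 E + vl 2 E) := by
  have key : ∀ (c : ℕ) (x : ℤ), E = 2 ^ c * x → x % 2 = 1 → 6 ≤ c := by
    intro c x hx hxo
    by_contra hc
    push Not at hc
    obtain ⟨k, hk⟩ := h64
    have h1 : (2 : ℤ) ^ (c + 1) ∣ 2 ^ c * x := by
      rw [← hx, hk]
      have : (64 : ℤ) = 2 ^ (c + 1) * 2 ^ (5 - c) := by
        rw [← pow_add]
        have : c + 1 + (5 - c) = 6 := by omega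
        rw [this]
        norm_num
      rw [this, mul_assoc]
      exact dvd_mul_right _ _
    rw [pow_succ] at h1
    have h2 : (2 : ℤ) ∣ x := (mul_dvd_mul_iff_left (pow_ne_zero c two_ne_zero)).1 h1
    omega
  rcases lt_trichotomy a b with hab | hab | hab
  · obtain ⟨d, hd⟩ := Nat.exists_eq_add_of_lt hab
    have hEx : E = 2 ^ a * (w - 2 ^ (d + 1) * w') := by
      rw [hE, hu, hu', hd, add_assoc, pow_add]
      ring
    have hxo : (w - 2 ^ (d + 1) * w') % 2 = 1 := by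
      rw [pow_succ]
      have : w - 2 ^ d * 2 * w' = w - 2 * (2 ^ d * w') := by ring
      rw [this]
      omega
    have ha6 := key a _ hEx hxo
    refine ⟨?_, fun hz => ?_⟩
    · rw [hu]
      have : (2 : ℤ) ^ a = 64 * 2 ^ (a - 6) := by
        have : (64 : ℤ) = 2 ^ 6 := by norm_num
        rw [this, ← pow_add]
        congr 1
        omega
      rw [this, mul_assoc]
      exact dvd_mul_right _ _
    · obtain ⟨u1, -, u3⟩ := vals u a w hu hw
      obtain ⟨E1, -, E3⟩ := vals E a _ hEx hxo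
      rw [u1, E1, u3, E3]
      have hr := m8b z w w' h8 hz hw
      have hx8 : (w - 2 ^ (d + 1) * w') % 8 = w % 8 ∨ (w - 2 ^ (d + 1) * w') % 8 = (-w) % 8 := by
        have hd2 : d % 2 = 0 := by omega
        rcases Nat.eq_zero_or_pos d with h0 | h0
        · right
          rw [h0, zero_add, pow_one]
          omega
        · left
          have : (2 : ℤ) ^ (d + 1) * w' = 8 * (2 ^ (d - 2) * w') := by
            have h1 : (2 : ℤ) ^ (d + 1) = 8 * 2 ^ (d - 2) := by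
              have : (8 : ℤ) = 2 ^ 3 := by norm_num
              rw [this, ← pow_add]
              congr 1
              omega
            rw [h1]
            ring
          rw [this]
          omega
      have hiff : (((w - 2 ^ (d + 1) * w') % 8 = 3 ∨ (w - 2 ^ (d + 1) * w') % 8 = 5)) ↔
          (w % 8 = 3 ∨ w % 8 = 5) := by
        rcases hx8 with h1 | h1
        · rw [h1]
        · rw [h1]
          omega
      simp only [hiff]
  · exfalso
    omega
  · obtain ⟨d, hd⟩ := Nat.exists_eq_add_of_lt hab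
    have hEx : E = 2 ^ b * (2 ^ (d + 1) * w - w') := by
      rw [hE, hu, hu', hd, add_assoc, pow_add]
      ring
    have hxo : (2 ^ (d + 1) * w - w') % 2 = 1 := by
      rw [pow_succ]
      have : 2 ^ d * 2 * w - w' = 2 * (2 ^ d * w) - w' := by ring
      rw [this]
      omega
    have hb6 := key b _ hEx hxo
    refine ⟨?_, fun hz => ?_⟩
    · rw [hu]
      have : (2 : ℤ) ^ a = 64 * 2 ^ (a - 6) := by
        have : (64 : ℤ) = 2 ^ 6 := by norm_num
        rw [this, ← pow_add]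
        congr 1
        omega
      rw [this, mul_assoc]
      exact dvd_mul_right _ _
    · obtain ⟨u1, -, u3⟩ := vals u a w hu hw
      obtain ⟨E1, -, E3⟩ := vals E b _ hEx hxo
      rw [u1, E1, u3, E3]
      have hr := m8b z w w' h8 hz hw
      have hd2 : d % 2 = 0 := by omega
      have hx8 : (2 ^ (d + 1) * w - w') % 8 = (-(3 * w)) % 8 ∨
          (2 ^ (d + 1) * w - w') % 8 = (-(5 * w)) % 8 := by
        rcases Nat.eq_zero_or_pos d with h0 | h0
        · left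
          rw [h0, zero_add, pow_one]
          omega
        · right
          have : (2 : ℤ) ^ (d + 1) * w = 8 * (2 ^ (d - 2) * w) := by
            have h1 : (2 : ℤ) ^ (d + 1) = 8 * 2 ^ (d - 2) := by
              have : (8 : ℤ) = 2 ^ 3 := by norm_num
              rw [this, ← pow_add]
              congr 1
              omega
            rw [h1]
            ring
          rw [this]
          omega
      have hiff : (((2 ^ (d + 1) * w - w') % 8 = 3 ∨ (2 ^ (d + 1) * w - w') % 8 = 5)) ↔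
          ¬ (w % 8 = 3 ∨ w % 8 = 5) := by
        rcases hx8 with h1 | h1
        · rw [h1]
          omega
        · rw [h1]
          omega
      simp only [hiff]
      have hcast : (a : ZMod 2) = (b : ZMod 2) + 1 := by
        obtain ⟨m, hm⟩ : ∃ m, d = 2 * m := ⟨d / 2, by omega⟩
        rw [hd, hm]
        push_cast
        have h2 : (2 : ZMod 2) = 0 := rfl
        rw [h2]
        ring
      rw [hcast]
      have h11 : (1 : ZMod 2) + 1 = 0 := rfl
      by_cases hP : w % 8 = 3 ∨ w % 8 = 5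
      · rw [if_pos hP, if_neg (not_not.2 hP)]
        rw [show (1 : ZMod 2) + ((b : ZMod 2) + 1) = (1 + 1) + b by ring, h11]
      · rw [if_neg hP, if_pos hP]
        ring

theorem d_two : TwoStmt := by
  intro e r s hT hC hD hDne
  obtain ⟨hs0, hcop, hne, hsq⟩ := hT
  obtain ⟨Z, hZ⟩ : ∃ Z, Z = Xc e r s 2 := ⟨_, rfl⟩
  obtain ⟨u, hu⟩ : ∃ u, u = Xc e r s 0 := ⟨_, rfl⟩
  obtain ⟨u', hu'⟩ : ∃ u', u' = Xc e r s 1 := ⟨_, rfl⟩
  have hZ0 := hne 2
  have hu0 := hne 0
  have hu0' := hne 1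
  rw [← hZ] at hZ0
  rw [← hu] at hu0
  rw [← hu'] at hu0'
  rw [← hu, ← hu', ← hZ] at hsq
  rw [← hZ, ← hu]
  have hsq' : IsSquare (Z * u * u') := by
    have : Z * u * u' = u * u' * Z := by ring
    rw [this]
    exact hsq
  obtain ⟨D, hDdef⟩ : ∃ D, D = e 1 - e 0 := ⟨_, rfl⟩
  obtain ⟨c, hcdef⟩ : ∃ c, c = e 2 - e 0 := ⟨_, rfl⟩
  have hD0 : D ≠ 0 := by
    rw [hDdef]
    exact sub_ne_zero.2 hDne
  rw [← hDdef] at hD ⊢
  rw [← hcdef] at hC
  have euZ : u = Z + c * (s * s) := by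
    rw [hu, hZ, hcdef]
    unfold Xc
    ring
  have euu : u' = u - D * (s * s) := by
    rw [hu, hu', hDdef]
    unfold Xc
    ring
  have h64 : (64 : ℤ) ∣ D * (s * s) := hD.mul_right _
  have hdec1 : ∀ n : ℤ, n = 2 ^ 0 * n := fun n => by simp
  rcases Int.emod_two_eq_zero_or_one s with hs | hs
  · -- s even
    obtain ⟨t, ht⟩ : ∃ t, s = 2 * t := ⟨s / 2, by omega⟩
    have hrodd : r % 2 = 1 := by
      by_contra hr
      have h1 : (2 : ℤ) ∣ r := by omega
      have h2 : (2 : ℤ) ∣ s := by omega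
      have := hcop.isUnit_of_dvd' h1 h2
      rw [Int.isUnit_iff] at this
      omega
    have hZr : Z = r - 2 * (e 2 * (2 * (t * t))) := by
      rw [hZ, ht]
      unfold Xc
      ring
    have hZo : Z % 2 = 1 := by omega
    have hcs : (c * (s * s)) % 8 = 0 := by
      obtain ⟨k, hk⟩ : ∃ k, c = 2 * k := ⟨c / 2, by omega⟩
      have : c * (s * s) = 8 * (k * (t * t)) := by
        rw [hk, ht]
        ring
      rw [this]
      omega
    have huo : u % 2 = 1 := by omega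
    have huo' : u' % 2 = 1 := by omega
    have h8 := (sq_dec Z u u' 0 0 0 Z u u' (hdec1 _) (hdec1 _) (hdec1 _) hZo huo huo' hsq').2
    have hZ8 := m8a Z u u' h8 (by omega) huo
    have hu8 : u % 8 = 1 := by omega
    obtain ⟨z1, z2, z3⟩ := vals Z 0 Z (hdec1 _) hZo
    obtain ⟨u1, -, u3⟩ := vals u 0 u (hdec1 _) huo
    rw [z1, z2, z3, u1, u3, if_neg (by omega), if_neg (by omega), if_neg (by omega)]
    simp
  · have hss := odd_sq8 s hs
    have hss16 : (c * (s * s)) % 16 = 6 := by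
      obtain ⟨k, hk⟩ : ∃ k, s * s = 8 * k + 1 := ⟨s * s / 8, by omega⟩
      obtain ⟨j, hj⟩ : ∃ j, c = 16 * j + 6 := ⟨c / 16, by omega⟩
      rw [hk, hj]
      have : (16 * j + 6) * (8 * k + 1) = 16 * (8 * j * k + j + 3 * k) + 6 := by ring
      rw [this]
      omega
    rcases Int.emod_two_eq_zero_or_one Z with hZ2 | hZ2
    · -- Z even
      by_cases hZ4 : Z % 4 = 0
      · -- 4 divides Z
        obtain ⟨w, hw⟩ : ∃ w, u = 2 ^ 1 * w := ⟨u / 2, by omega⟩
        obtain ⟨w', hw'⟩ : ∃ w', u' = 2 ^ 1 * w' := ⟨u' / 2, by omega⟩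
        have hwo : w % 2 = 1 := by omega
        have hwo' : w' % 2 = 1 := by omega
        have hww : w' % 8 = w % 8 := by omega
        obtain ⟨v, z, hz, hzo⟩ := exists_dec Z hZ0
        obtain ⟨hpar, h8⟩ := sq_dec Z u u' v 1 1 z w w' hz hw hw' hzo hwo hwo' hsq'
        have hz8 := m8a z w w' h8 hww hwo
        have hv2 : v % 2 = 0 := by omega
        have hv0 : v ≠ 0 := by
          rintro rfl
          rw [pow_zero, one_mul] at hz
          omega
        obtain ⟨z1, z2, z3⟩ := vals Z v z hz hzo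
        obtain ⟨u1, -, u3⟩ := vals u 1 w hw hwo
        have hw8 : w % 8 = 3 ∨ w % 8 = 5 := by
          by_cases hv : v = 2
          · rw [hv] at hz
            right
            omega
          · have hv4 : 4 ≤ v := by omega
            have : (2 : ℤ) ^ v = 16 * 2 ^ (v - 4) := by
              have : (16 : ℤ) = 2 ^ 4 := by norm_num
              rw [this, ← pow_add]
              congr 1
              omega
            rw [this, mul_assoc] at hz
            left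
            omega
        have hvc : (v : ZMod 2) = 0 := by
          obtain ⟨m, hm⟩ : ∃ m, v = 2 * m := ⟨v / 2, by omega⟩
          rw [hm]
          push_cast
          have h2 : (2 : ZMod 2) = 0 := rfl
          rw [h2, zero_mul]
        rw [z1, z2, z3, u1, u3, hvc, if_neg (by omega), if_neg (by omega), if_pos hw8, zero_mul]
        exact ⟨rfl, rfl, rfl⟩
      · -- Z is twice an odd number
        obtain ⟨z, hz⟩ : ∃ z, Z = 2 ^ 1 * z := ⟨Z / 2, by omega⟩
        have hzo : z % 2 = 1 := by omega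
        obtain ⟨a, w, hw, hwo⟩ := exists_dec u hu0
        obtain ⟨b, w', hw', hwo'⟩ := exists_dec u' hu0'
        obtain ⟨hpar, h8⟩ := sq_dec Z u u' 1 a b z w w' hz hw hw' hzo hwo hwo' hsq'
        obtain ⟨g1, g2⟩ := last_case u u' (D * (s * s)) a b w w' z hw hw' hwo hwo' (by omega) h64
          (by omega) h8
        have hz8 : z % 8 = 5 := by omega
        have g3 := g2 hz8
        obtain ⟨z1, z2, z3⟩ := vals Z 1 z hz hzo
        obtain ⟨cD, x, hx, hxo⟩ := exists_dec D hD0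
        obtain ⟨D1, -, D3⟩ := vals D cD x hx hxo
        have hDs : D * (s * s) = 2 ^ cD * (x * (s * s)) := by
          rw [hx]
          ring
        obtain ⟨E1, -, E3⟩ := vals (D * (s * s)) cD (x * (s * s)) hDs
          (odd_mul _ _ hxo (odd_mul _ _ hs hs))
        have hx8 : (x * (s * s)) % 8 = x % 8 := by
          rw [Int.mul_emod, hss, mul_one, Int.emod_emod_of_dvd _ (dvd_refl 8)]
        rw [g3, E1, E3, D1, D3, hx8, z1, z2, z3, if_neg (by omega), if_pos (Or.inr hz8),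
          Nat.cast_one, one_mul]
        exact ⟨rfl, rfl, rfl⟩
    · -- Z odd
      have huo : u % 2 = 1 := by omega
      have huo' : u' % 2 = 1 := by omega
      have h8 := (sq_dec Z u u' 0 0 0 Z u u' (hdec1 _) (hdec1 _) (hdec1 _) hZ2 huo huo' hsq').2
      have hZ8 := m8a Z u u' h8 (by omega) huo
      have hu8 : u % 8 = 7 := by omega
      obtain ⟨z1, z2, z3⟩ := vals Z 0 Z (hdec1 _) hZ2
      obtain ⟨u1, -, u3⟩ := vals u 0 u (hdec1 _) huo
      rw [z1, z2, z3, u1, u3, if_neg (by omega), if_neg (by omega), if_neg (by omega)]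
      simp

end Pool.Agent.GT.D.H3
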