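import Pool.Agent.GT.StmtsF

/-!
# Row F_KER: a point with trivial classes is a double
-/

set_option autoImplicit false

namespace Pool.Agent.GT.F.H3

open Polynomial Pool.Agent.NJ Pool.Agent.GT.F WeierstrassCurve WeierstrassCurve.Affine

theorem some_congr {K : Type} [Field K] {W : WeierstrassCurve K} {x y x' y' : K}
    (hx : x = x') (hy : y = y') (h : W.toAffine.Nonsingular x y)
    (h' : W.toAffine.Nonsingular x' y') :
    (Point.some x y h : W.toAffine.Point) = Point.some x' y' h' := by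
  subst hx
  subst hy
  rfl

/-- the halving formula -/
theorem halve {K : Type} [Field K] [CharZero K] [DecidableEq K] (W : WeierstrassCurve K)
    {x₀ y₀ r₀ r₁ r₂ : K} (hR : Roots W (x₀ - r₀ ^ 2) (x₀ - r₁ ^ 2) (x₀ - r₂ ^ 2))
    (h01 : r₀ + r₁ ≠ 0) (h02 : r₀ + r₂ ≠ 0) (h12 : r₁ + r₂ ≠ 0)
    (hη : 2 * y₀ + W.a₁ * x₀ + W.a₃ = 2 * (r₀ * r₁ * r₂)) (hP : W.toAffine.Nonsingular x₀ y₀) :
    ∃ Q : W.toAffine.Point, Point.some x₀ y₀ hP = Q + Q := by
  have two : (2 : K) ≠ 0 := two_ne_zero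
  have four : (4 : K) ≠ 0 := by exact_mod_cast (by norm_num : (4 : ℕ) ≠ 0)
  obtain ⟨h2, h4, h6⟩ := hR
  unfold WeierstrassCurve.b₂ at h2
  unfold WeierstrassCurve.b₄ at h4
  unfold WeierstrassCurve.b₆ at h6
  have hy0 : y₀ = r₀ * r₁ * r₂ - (W.a₁ * x₀ + W.a₃) / 2 := by
    field_simp
    linear_combination hη
  have e2 : W.a₂ = -((x₀ - r₀ ^ 2) + (x₀ - r₁ ^ 2) + (x₀ - r₂ ^ 2)) - W.a₁ ^ 2 / 4 := by
    field_simp
    linear_combination h2
  have e4 : W.a₄ = ((x₀ - r₀ ^ 2) * (x₀ - r₁ ^ 2) + (x₀ - r₀ ^ 2) * (x₀ - r₂ ^ 2) +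
      (x₀ - r₁ ^ 2) * (x₀ - r₂ ^ 2)) - W.a₁ * W.a₃ / 2 := by
    field_simp
    linear_combination h4
  have e6 : W.a₆ = -((x₀ - r₀ ^ 2) * (x₀ - r₁ ^ 2) * (x₀ - r₂ ^ 2)) - W.a₃ ^ 2 / 4 := by
    field_simp
    linear_combination h6
  obtain ⟨x, hx⟩ : ∃ x, x = x₀ + (r₀ * r₁ + r₀ * r₂ + r₁ * r₂) := ⟨_, rfl⟩
  obtain ⟨Y, hY⟩ : ∃ Y, Y = (r₀ + r₁) * (r₀ + r₂) * (r₁ + r₂) := ⟨_, rfl⟩
  have hY0 : Y ≠ 0 := by
    rw [hY]
    exact mul_ne_zero (mul_ne_zero h01 h02) h12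
  obtain ⟨y, hy⟩ : ∃ y, y = Y - (W.a₁ * x + W.a₃) / 2 := ⟨_, rfl⟩
  have hneg : y - (-y - W.a₁ * x - W.a₃) = 2 * Y := by
    rw [hy]
    field_simp
    ring
  have hyn : y ≠ W.toAffine.negY x y := by
    intro h
    have h1 : y - (-y - W.a₁ * x - W.a₃) = 0 := sub_eq_zero.2 h
    rw [hneg] at h1
    exact (mul_ne_zero two hY0) h1
  have hE : W.toAffine.Equation x y := by
    rw [Affine.equation_iff']
    rw [e2, e4, e6, hy, hY, hx]
    field_simp
    ring
  have hN : W.toAffine.Nonsingular x y := by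
    rw [Affine.nonsingular_iff]
    exact ⟨hE, Or.inr hyn⟩
  have hs : W.toAffine.slope x x y y = (r₀ + r₁ + r₂) - W.a₁ / 2 := by
    rw [Affine.slope_of_Y_ne rfl hyn]
    have h1 : y - W.toAffine.negY x y = 2 * Y := hneg
    rw [h1, div_eq_iff (mul_ne_zero two hY0), e2, e4, hy, hY, hx]
    field_simp
    ring
  have hX : W.toAffine.addX x x (W.toAffine.slope x x y y) = x₀ := by
    rw [hs]
    unfold Affine.addX
    rw [e2, hx]
    field_simp
    ring
  have hYY : W.toAffine.addY x x y (W.toAffine.slope x x y y) = y₀ := by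
    unfold Affine.addY Affine.negAddY Affine.negY
    rw [hX, hs, hy0, hy, hY, hx]
    field_simp
    ring
  refine ⟨Point.some x y hN, ?_⟩
  rw [Affine.Point.add_self_of_Y_ne hyn]
  exact some_congr hX.symm hYY.symm _ _

/-- F_KER -/
theorem f_ker : KerStmt := by
  intro K _ _ _ W e hR he P hP
  cases P with
  | zero => exact ⟨0, (add_zero _).symm⟩
  | some x₀ y₀ hN =>
    have two : (2 : K) ≠ 0 := two_ne_zero
    -- the square roots
    have hr : ∀ i, ∃ r, x₀ - e i = r ^ 2 := by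
      intro i
      by_cases h : x₀ = e i
      · exact ⟨0, by rw [h]; ring⟩
      · obtain ⟨r, hr⟩ := (hP i).1 h
        exact ⟨r, by rw [one_mul] at hr; rw [hr]; ring⟩
    choose r hr using hr
    have hE := (Affine.equation_iff' _ _).1 hN.1
    obtain ⟨h2, h4, h6⟩ := hR
    have hη : (2 * y₀ + W.a₁ * x₀ + W.a₃) ^ 2 = (2 * (r 0 * r 1 * r 2)) ^ 2 := by
      have h0 : (2 * y₀ + W.a₁ * x₀ + W.a₃) ^ 2 =
          4 * ((x₀ - e 0) * (x₀ - e 1) * (x₀ - e 2)) := by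
        unfold WeierstrassCurve.b₂ at h2
        unfold WeierstrassCurve.b₄ at h4
        unfold WeierstrassCurve.b₆ at h6
        linear_combination 4 * hE + x₀ ^ 2 * h2 + 2 * x₀ * h4 + h6
      rw [h0, hr 0, hr 1, hr 2]
      ring
    have hR : Roots W (e 0) (e 1) (e 2) := ⟨h2, h4, h6⟩
    have hne : ∀ i j, i ≠ j → ∀ a b : K, a ^ 2 = x₀ - e i → b ^ 2 = x₀ - e j → a + b ≠ 0 := by
      intro i j hij a b ha hb h
      apply hij
      apply he
      have h1 : a = -b := by linear_combination h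
      rw [h1] at ha
      linear_combination ha - hb
    rcases sq_eq_sq_iff_eq_or_eq_neg.1 hη with h | h
    · refine halve W (r₀ := r 0) (r₁ := r 1) (r₂ := r 2) ?_
        (hne 0 1 (by decide) _ _ (hr 0).symm (hr 1).symm)
        (hne 0 2 (by decide) _ _ (hr 0).symm (hr 2).symm)
        (hne 1 2 (by decide) _ _ (hr 1).symm (hr 2).symm) h hN
      rw [← hr 0, ← hr 1, ← hr 2]
      simp only [sub_sub_cancel]
      exact hR
    · have hn : (-r 0) ^ 2 = x₀ - e 0 := by rw [hr 0]; ring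
      refine halve W (r₀ := -r 0) (r₁ := r 1) (r₂ := r 2) ?_
        (hne 0 1 (by decide) _ _ hn (hr 1).symm)
        (hne 0 2 (by decide) _ _ hn (hr 2).symm)
        (hne 1 2 (by decide) _ _ (hr 1).symm (hr 2).symm) (by rw [h]; ring) hN
      rw [hn, ← hr 1, ← hr 2]
      simp only [sub_sub_cancel]
      exact hR

end Pool.Agent.GT.F.H3
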